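import Pool.Agent.H82.HD.TA

/-!
# Row (BPG): back projection
-/

set_option autoImplicit false

namespace Pool.Agent.H89.HDS

open Pool.Agent.H83.G
open Pool.Agent.H82.HD
open scoped RealInnerProductSpace

variable {m : ℕ}

theorem bpg_add (η : E m) (z z' : Z m) : bp η (z + z') = bp η z + bp η z' := by
  unfold bp tm
  refine Prod.ext ?_ ?_
  · simp only [Prod.fst_add, Prod.snd_add]
    ring
  · simp only [Prod.fst_add, Prod.snd_add]
    have h : 2 * (z.1 + z'.1 + (z.2.2 + z'.2.2)) / (1 + ‖η‖ ^ 2) =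
        2 * (z.1 + z.2.2) / (1 + ‖η‖ ^ 2) + 2 * (z'.1 + z'.2.2) / (1 + ‖η‖ ^ 2) := by ring
    rw [h]
    module

theorem bpg_sub (η : E m) (z z' : Z m) : bp η (z - z') = bp η z - bp η z' := by
  unfold bp tm
  refine Prod.ext ?_ ?_
  · simp only [Prod.fst_sub, Prod.snd_sub]
    ring
  · simp only [Prod.fst_sub, Prod.snd_sub]
    have h : 2 * (z.1 - z'.1 + (z.2.2 - z'.2.2)) / (1 + ‖η‖ ^ 2) =
        2 * (z.1 + z.2.2) / (1 + ‖η‖ ^ 2) - 2 * (z'.1 + z'.2.2) / (1 + ‖η‖ ^ 2) := by ring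
    rw [h]
    module

theorem bpg_smul (η : E m) (c : ℝ) (z : Z m) : bp η (c • z) = c • bp η z := by
  unfold bp tm
  refine Prod.ext ?_ ?_
  · simp only [Prod.smul_fst, Prod.smul_snd, smul_eq_mul]
    ring
  · simp only [Prod.smul_fst, Prod.smul_snd, smul_eq_mul]
    have h : 2 * (c * z.1 + c * z.2.2) / (1 + ‖η‖ ^ 2) =
        c * (2 * (z.1 + z.2.2) / (1 + ‖η‖ ^ 2)) := by ring
    rw [h]
    module

theorem bpg_tm (z : Z m) : |tm z| ≤ 2 * ‖z‖ := by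
  have h1 : |z.1| ≤ ‖z‖ := norm_fst_le z
  have h2 : |z.2.2| ≤ ‖z‖ := (norm_snd_le z.2).trans (norm_snd_le z)
  unfold tm
  have h3 := abs_add_le z.1 z.2.2
  linarith

theorem bpg_eq (η : E m) (z : Z m) : bp η z = ((z.1, z.2.1) : ℝ × E m) - tm z • wv η := by
  unfold bp wv
  refine Prod.ext ?_ ?_
  · simp only [Prod.fst_sub, Prod.smul_fst, smul_eq_mul]
  · simp only [Prod.snd_sub, Prod.smul_snd]
    have h : 2 * tm z / (1 + ‖η‖ ^ 2) = tm z * (2 / (1 + ‖η‖ ^ 2)) := by ring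
    rw [h]
    module

theorem bpg_wv (η : E m) : ‖wv η‖ ≤ 1 := by
  have hn := norm_nonneg η
  have hp : 0 < 1 + ‖η‖ ^ 2 := by positivity
  rw [norm_prod_le_iff]
  refine ⟨?_, ?_⟩
  · change ‖‖η‖ ^ 2 / (1 + ‖η‖ ^ 2)‖ ≤ 1
    rw [Real.norm_of_nonneg (by positivity), div_le_one hp]
    linarith
  · change ‖-((2 / (1 + ‖η‖ ^ 2)) • η)‖ ≤ 1
    rw [norm_neg, norm_smul, Real.norm_of_nonneg (by positivity), div_mul_eq_mul_div,
      div_le_one hp]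
    nlinarith [sq_nonneg (1 - ‖η‖)]

theorem bpg_b1 (η : E m) (z : Z m) :
    (bp η z).1 = ((Lo η 1 z).1 - ⟪(Lo η 1 z).2.1, η⟫) / (1 + ‖η‖ ^ 2) := by
  have hp : (1 + ‖η‖ ^ 2) ≠ 0 := by positivity
  unfold bp Lo tm
  simp only [one_smul]
  rw [inner_add_left, real_inner_smul_left, real_inner_self_eq_norm_sq]
  field_simp
  ring

theorem bpg_b2 (η : E m) (z : Z m) :
    (bp η z).2 = (Lo η 1 z).2.1 + (2 * (bp η z).1) • η := by
  have hp : (1 + ‖η‖ ^ 2) ≠ 0 := by positivity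
  unfold bp Lo
  simp only [one_smul]
  have h : 2 * tm z / (1 + ‖η‖ ^ 2) =
      2 * z.2.2 + 2 * (z.1 - tm z * (‖η‖ ^ 2 / (1 + ‖η‖ ^ 2))) := by
    unfold tm
    field_simp
    ring
  rw [h]
  module

theorem bpg_inner (x η : E m) (D : ℝ) (h : ‖η‖ ≤ D) : |⟪x, η⟫| ≤ D * ‖x‖ := by
  have h1 := abs_real_inner_le_norm x η
  have h2 : ‖x‖ * ‖η‖ ≤ ‖x‖ * D := mul_le_mul_of_nonneg_left h (norm_nonneg _)
  linarith

theorem bpg_up (η : E m) (z : Z m) (D : ℝ) (hD : 0 ≤ D) (h : ‖η‖ ≤ D) :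
    ‖bp η z‖ ≤ (1 + 2 * D + 2 * D ^ 2) * (|(Lo η 1 z).1| + ‖(Lo η 1 z).2.1‖) := by
  set V : ℝ := (Lo η 1 z).1 with hV
  set Y : E m := (Lo η 1 z).2.1 with hY
  have hn := norm_nonneg η
  have hp : 1 ≤ 1 + ‖η‖ ^ 2 := by nlinarith
  have h1 : |(bp η z).1| ≤ |V| + D * ‖Y‖ := by
    rw [bpg_b1, ← hV, ← hY, abs_div, abs_of_pos (by linarith : (0 : ℝ) < 1 + ‖η‖ ^ 2)]
    refine (div_le_self (abs_nonneg _) hp).trans ?_
    have h2 := abs_sub V ⟪Y, η⟫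
    have h3 := bpg_inner Y η D h
    linarith
  have h2 : ‖(bp η z).2‖ ≤ ‖Y‖ + 2 * |(bp η z).1| * D := by
    rw [bpg_b2, ← hY]
    refine (norm_add_le _ _).trans ?_
    rw [norm_smul, Real.norm_eq_abs, abs_mul, abs_two]
    have := mul_le_mul_of_nonneg_left h (by positivity : 0 ≤ 2 * |(bp η z).1|)
    linarith
  have hV0 := abs_nonneg V
  have hY0 := norm_nonneg Y
  have hb0 := abs_nonneg (bp η z).1
  have h3 : 0 ≤ D * |V| := mul_nonneg hD hV0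
  have h4 : 0 ≤ D * ‖Y‖ := mul_nonneg hD hY0
  have h5 : 0 ≤ D ^ 2 * |V| := mul_nonneg (sq_nonneg D) hV0
  have h6 : 0 ≤ D ^ 2 * ‖Y‖ := mul_nonneg (sq_nonneg D) hY0
  rw [norm_prod_le_iff]
  refine ⟨?_, ?_⟩
  · rw [Real.norm_eq_abs]
    nlinarith
  · have h7 : 2 * |(bp η z).1| * D ≤ 2 * (|V| + D * ‖Y‖) * D := by
      have := mul_le_mul_of_nonneg_right h1 hD
      linarith
    nlinarith

theorem bpg_down (η : E m) (z : Z m) (D : ℝ) (hD : 0 ≤ D) (h : ‖η‖ ≤ D) :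
    |(Lo η 1 z).1| + ‖(Lo η 1 z).2.1‖ ≤ (2 + 3 * D + 3 * D ^ 2) * ‖bp η z‖ := by
  set V : ℝ := (Lo η 1 z).1 with hV
  set Y : E m := (Lo η 1 z).2.1 with hY
  have hn := norm_nonneg η
  have hp : 1 + ‖η‖ ^ 2 ≠ 0 := by positivity
  set B : ℝ := ‖bp η z‖ with hB
  have hB0 : 0 ≤ B := norm_nonneg _
  have hb1 : |(bp η z).1| ≤ B := norm_fst_le (bp η z)
  have hb2 : ‖(bp η z).2‖ ≤ B := norm_snd_le (bp η z)
  have h1 : Y = (bp η z).2 - (2 * (bp η z).1) • η := by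
    rw [bpg_b2, ← hY]
    module
  have h2 : V = (1 + ‖η‖ ^ 2) * (bp η z).1 + ⟪Y, η⟫ := by
    rw [bpg_b1, ← hV, ← hY]
    field_simp
    ring
  have h3 : ‖Y‖ ≤ B + 2 * B * D := by
    rw [h1]
    refine (norm_sub_le _ _).trans ?_
    rw [norm_smul, Real.norm_eq_abs, abs_mul, abs_two]
    have h4 : 2 * |(bp η z).1| * ‖η‖ ≤ 2 * B * D :=
      mul_le_mul (by linarith) h hn (by linarith)
    linarith
  have h4 : |V| ≤ (1 + D ^ 2) * B + D * (B + 2 * B * D) := by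
    have h5 : |V| ≤ |(1 + ‖η‖ ^ 2) * (bp η z).1| + |⟪Y, η⟫| := by
      have := abs_add_le ((1 + ‖η‖ ^ 2) * (bp η z).1) ⟪Y, η⟫
      rw [← h2] at this
      exact this
    have h6 := bpg_inner Y η D h
    have h7 : |(1 + ‖η‖ ^ 2) * (bp η z).1| ≤ (1 + D ^ 2) * B := by
      rw [abs_mul, abs_of_nonneg (by positivity : 0 ≤ 1 + ‖η‖ ^ 2)]
      refine mul_le_mul ?_ hb1 (abs_nonneg _) (by positivity)
      have := pow_le_pow_left₀ hn h 2
      linarith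
    have h8 := mul_le_mul_of_nonneg_left h3 hD
    linarith
  nlinarith

/-! ### The velocities -/

theorem bpg_lip (η η' : E m) (D : ℝ) (hD : 0 ≤ D) (h : ‖η‖ ≤ D) (h' : ‖η'‖ ≤ D) :
    ‖wv η - wv η'‖ ≤ (2 + 2 * D + 4 * D ^ 2) * ‖η - η'‖ := by
  have hn := norm_nonneg η
  have hn' := norm_nonneg η'
  have hp : 0 < 1 + ‖η‖ ^ 2 := by positivity
  have hp' : 0 < 1 + ‖η'‖ ^ 2 := by positivity
  set r : ℝ := 1 / (1 + ‖η‖ ^ 2) with hr
  set r' : ℝ := 1 / (1 + ‖η'‖ ^ 2) with hr'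
  set d : ℝ := ‖η - η'‖ with hd
  have hd0 : 0 ≤ d := norm_nonneg _
  have hr1 : r ≤ 1 := by
    rw [hr, div_le_one hp]
    nlinarith
  have hr0 : 0 ≤ r := by positivity
  have hr'1 : r' ≤ 1 := by
    rw [hr', div_le_one hp']
    nlinarith
  have hr'0 : 0 ≤ r' := by positivity
  have h1 : |r - r'| ≤ 2 * D * d := by
    have e : r - r' = (‖η'‖ - ‖η‖) * (‖η'‖ + ‖η‖) * (r * r') := by
      rw [hr, hr']
      field_simp
      ring
    rw [e, abs_mul, abs_mul, abs_of_nonneg (by positivity : 0 ≤ r * r'),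
      abs_of_nonneg (by positivity : 0 ≤ ‖η'‖ + ‖η‖)]
    have h2 : |‖η'‖ - ‖η‖| ≤ d := by
      rw [hd, norm_sub_rev]
      exact abs_norm_sub_norm_le η' η
    have h3 : r * r' ≤ 1 := mul_le_one₀ hr1 hr'0 hr'1
    calc |‖η'‖ - ‖η‖| * (‖η'‖ + ‖η‖) * (r * r') ≤ |‖η'‖ - ‖η‖| * (‖η'‖ + ‖η‖) * 1 :=
          mul_le_mul_of_nonneg_left h3 (by positivity)
      _ ≤ d * (D + D) * 1 := by
          refine mul_le_mul_of_nonneg_right ?_ zero_le_one
          exact mul_le_mul h2 (by linarith) (by positivity) hd0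
      _ = 2 * D * d := by ring
  rw [norm_prod_le_iff]
  have hDd : 0 ≤ D * d := mul_nonneg hD hd0
  have hDDd : 0 ≤ D ^ 2 * d := mul_nonneg (sq_nonneg D) hd0
  refine ⟨?_, ?_⟩
  · have e : (wv η - wv η').1 = -(r - r') := by
      change ‖η‖ ^ 2 / (1 + ‖η‖ ^ 2) - ‖η'‖ ^ 2 / (1 + ‖η'‖ ^ 2) = -(r - r')
      rw [hr, hr']
      field_simp
      ring
    rw [e, norm_neg, Real.norm_eq_abs]
    nlinarith
  · have e : (wv η - wv η').2 = -((2 : ℝ) • (r • (η - η') + (r - r') • η')) := by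
      change -((2 / (1 + ‖η‖ ^ 2)) • η) - -((2 / (1 + ‖η'‖ ^ 2)) • η') = _
      have e1 : 2 / (1 + ‖η‖ ^ 2) = 2 * r := by rw [hr]; ring
      have e2 : 2 / (1 + ‖η'‖ ^ 2) = 2 * r' := by rw [hr']; ring
      rw [e1, e2]
      module
    rw [e, norm_neg, norm_smul, Real.norm_two]
    have h2 : ‖r • (η - η') + (r - r') • η'‖ ≤ d + 2 * D * d * D := by
      refine (norm_add_le _ _).trans ?_
      rw [norm_smul, norm_smul, Real.norm_of_nonneg hr0, Real.norm_eq_abs]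
      have h3 : r * ‖η - η'‖ ≤ d := by
        rw [← hd]
        nlinarith
      have h4 : |r - r'| * ‖η'‖ ≤ 2 * D * d * D :=
        mul_le_mul h1 h' hn' (by positivity)
      linarith
    nlinarith

theorem bpg_inv (η η' : E m) (D : ℝ) (hD : 0 ≤ D) (h : ‖η‖ ≤ D) (h' : ‖η'‖ ≤ D) :
    ‖η - η'‖ ≤ (1 + D ^ 2) ^ 2 * ‖wv η - wv η'‖ := by
  have hn := norm_nonneg η
  have hn' := norm_nonneg η'
  have hp : 0 < 1 + ‖η‖ ^ 2 := by positivity
  have hp' : 0 < 1 + ‖η'‖ ^ 2 := by positivity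
  set s : ℝ := 1 + ‖η‖ ^ 2 with hs
  set s' : ℝ := 1 + ‖η'‖ ^ 2 with hs'
  set w : ℝ := ‖wv η - wv η'‖ with hw
  have hw0 : 0 ≤ w := norm_nonneg _
  have hsD : s ≤ 1 + D ^ 2 := by
    have := pow_le_pow_left₀ hn h 2
    linarith
  have hs'D : s' ≤ 1 + D ^ 2 := by
    have := pow_le_pow_left₀ hn' h' 2
    linarith
  have hD1 : 1 ≤ 1 + D ^ 2 := by nlinarith [sq_nonneg D]
  have h1 : |(wv η - wv η').1| ≤ w := by
    rw [← Real.norm_eq_abs]
    exact norm_fst_le _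
  have h2 : ‖(wv η - wv η').2‖ ≤ w := norm_snd_le _
  have h3 : ‖(wv η').2‖ ≤ 1 := (norm_snd_le _).trans (bpg_wv η')
  have e1 : s - s' = s * s' * (wv η - wv η').1 := by
    change s - s' = s * s' * (‖η‖ ^ 2 / s - ‖η'‖ ^ 2 / s')
    have e2 : ‖η‖ ^ 2 = s - 1 := by rw [hs]; ring
    have e3 : ‖η'‖ ^ 2 = s' - 1 := by rw [hs']; ring
    rw [e2, e3]
    have hs0 : s ≠ 0 := hp.ne'
    have hs'0 : s' ≠ 0 := hp'.ne'
    field_simp
    ring
  have e4 : η - η' = (-(1 / 2) : ℝ) • (s • (wv η - wv η').2 + (s - s') • (wv η').2) := by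
    change η - η' = (-(1 / 2) : ℝ) • (s • (-((2 / s) • η) - -((2 / s') • η')) +
      (s - s') • -((2 / s') • η'))
    have e5 : s • (-((2 / s) • η) - -((2 / s') • η')) + (s - s') • -((2 / s') • η') =
        (-(s * (2 / s))) • η + (s' * (2 / s')) • η' := by
      module
    have e6 : s * (2 / s) = 2 := mul_div_cancel₀ _ hp.ne'
    have e7 : s' * (2 / s') = 2 := mul_div_cancel₀ _ hp'.ne'
    rw [e5, e6, e7]
    module
  rw [e4, norm_smul, norm_neg, Real.norm_of_nonneg (by norm_num : (0 : ℝ) ≤ 1 / 2)]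
  have h4 : ‖s • (wv η - wv η').2 + (s - s') • (wv η').2‖ ≤
      (1 + D ^ 2) * w + (1 + D ^ 2) * (1 + D ^ 2) * w := by
    refine (norm_add_le _ _).trans ?_
    rw [norm_smul, norm_smul, Real.norm_of_nonneg hp.le, Real.norm_eq_abs]
    have h5 : s * ‖(wv η - wv η').2‖ ≤ (1 + D ^ 2) * w :=
      mul_le_mul hsD h2 (norm_nonneg _) (by positivity)
    have h6 : |s - s'| ≤ (1 + D ^ 2) * (1 + D ^ 2) * w := by
      rw [e1, abs_mul, abs_of_nonneg (by positivity : 0 ≤ s * s')]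
      exact mul_le_mul (mul_le_mul hsD hs'D hp'.le (by positivity)) h1 (abs_nonneg _)
        (by positivity)
    have h7 : |s - s'| * ‖(wv η').2‖ ≤ (1 + D ^ 2) * (1 + D ^ 2) * w * 1 :=
      mul_le_mul h6 h3 (norm_nonneg _) (by positivity)
    linarith
  have h8 : (1 + D ^ 2) * w ≤ (1 + D ^ 2) * (1 + D ^ 2) * w := by
    have : 0 ≤ (1 + D ^ 2) * w := by positivity
    nlinarith
  calc 1 / 2 * ‖s • (wv η - wv η').2 + (s - s') • (wv η').2‖
      ≤ 1 / 2 * ((1 + D ^ 2) * w + (1 + D ^ 2) * (1 + D ^ 2) * w) :=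
        mul_le_mul_of_nonneg_left h4 (by norm_num)
    _ ≤ (1 + D ^ 2) ^ 2 * w := by nlinarith

theorem bpg_diff (η η' : E m) (z : Z m) :
    ‖bp η z - bp η' z‖ = |tm z| * ‖wv η - wv η'‖ := by
  rw [bpg_eq, bpg_eq]
  have e : ((z.1, z.2.1) : ℝ × E m) - tm z • wv η - (((z.1, z.2.1) : ℝ × E m) - tm z • wv η') =
      -(tm z • (wv η - wv η')) := by
    module
  rw [e, norm_neg, norm_smul, Real.norm_eq_abs]

theorem bpg_pair (z : Z m) : ‖((z.1, z.2.1) : ℝ × E m)‖ ≤ ‖z‖ := by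
  rw [norm_prod_le_iff]
  exact ⟨norm_fst_le z, (norm_fst_le z.2).trans (norm_snd_le z)⟩

theorem bpg_size (η : E m) (z : Z m) : ‖bp η z‖ ≤ 3 * ‖z‖ := by
  rw [bpg_eq]
  refine (norm_sub_le _ _).trans ?_
  rw [norm_smul, Real.norm_eq_abs]
  have h1 := bpg_pair z
  have h2 : |tm z| * ‖wv η‖ ≤ |tm z| * 1 :=
    mul_le_mul_of_nonneg_left (bpg_wv η) (abs_nonneg _)
  have h3 := bpg_tm z
  linarith

theorem bpg_size' (η : E m) (z : Z m) : ‖z‖ ≤ 2 * (‖bp η z‖ + |tm z|) := by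
  have h0 : ‖((z.1, z.2.1) : ℝ × E m)‖ ≤ ‖bp η z‖ + |tm z| := by
    have e : ((z.1, z.2.1) : ℝ × E m) = bp η z + tm z • wv η := by
      rw [bpg_eq]
      module
    rw [e]
    refine (norm_add_le _ _).trans ?_
    rw [norm_smul, Real.norm_eq_abs]
    have h2 : |tm z| * ‖wv η‖ ≤ |tm z| * 1 :=
      mul_le_mul_of_nonneg_left (bpg_wv η) (abs_nonneg _)
    linarith
  have hb := norm_nonneg (bp η z)
  have ht := abs_nonneg (tm z)
  have h1 : ‖z.1‖ ≤ ‖bp η z‖ + |tm z| :=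
    (norm_fst_le ((z.1, z.2.1) : ℝ × E m)).trans h0
  have h2 : ‖z.2.1‖ ≤ ‖bp η z‖ + |tm z| :=
    (norm_snd_le ((z.1, z.2.1) : ℝ × E m)).trans h0
  rw [norm_prod_le_iff, norm_prod_le_iff]
  refine ⟨by linarith, by linarith, ?_⟩
  have e : z.2.2 = tm z - z.1 := by
    unfold tm
    ring
  rw [e, Real.norm_eq_abs]
  rw [Real.norm_eq_abs] at h1
  have h3 := abs_sub (tm z) z.1
  linarith

theorem pf_BPG : T_BPG := by
  intro m
  refine ⟨fun η z z' => ⟨bpg_add η z z', bpg_sub η z z'⟩, fun η c z => bpg_smul η c z,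
    fun z z' c => ⟨?_, ?_, ?_, bpg_tm z⟩, fun η z => ⟨bpg_eq η z, bpg_wv η⟩, fun D hD => ?_⟩
  · unfold tm
    simp only [Prod.fst_add, Prod.snd_add]
    ring
  · unfold tm
    simp only [Prod.fst_sub, Prod.snd_sub]
    ring
  · unfold tm
    simp only [Prod.smul_fst, Prod.smul_snd, smul_eq_mul]
    ring
  have hD2 := sq_nonneg D
  set C : ℝ := (3 + 3 * D + 4 * D ^ 2) + (1 + D ^ 2) ^ 2 with hC
  have h11 : 1 ≤ (1 + D ^ 2) ^ 2 := by nlinarith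
  have c1 : 3 ≤ C := by nlinarith
  have c2 : 1 + 2 * D + 2 * D ^ 2 ≤ C := by nlinarith
  have c3 : 2 + 3 * D + 3 * D ^ 2 ≤ C := by nlinarith
  have c4 : 2 + 2 * D + 4 * D ^ 2 ≤ C := by nlinarith
  have c5 : (1 + D ^ 2) ^ 2 ≤ C := by nlinarith
  refine ⟨C, by linarith, fun η z h => ⟨?_, ?_, ?_, ?_⟩, fun η η' z h h' => ⟨?_, ?_, ?_, ?_⟩⟩
  · exact (bpg_size η z).trans (mul_le_mul_of_nonneg_right c1 (norm_nonneg _))
  · exact (bpg_size' η z).trans (mul_le_mul_of_nonneg_right (by linarith) (by positivity))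
  · exact (bpg_up η z D hD h).trans (mul_le_mul_of_nonneg_right c2 (by positivity))
  · exact (bpg_down η z D hD h).trans (mul_le_mul_of_nonneg_right c3 (norm_nonneg _))
  · rw [bpg_diff]
    have h1 := (bpg_lip η η' D hD h h').trans
      (mul_le_mul_of_nonneg_right c4 (norm_nonneg (η - η')))
    have h2 := mul_le_mul_of_nonneg_left h1 (abs_nonneg (tm z))
    linarith
  · rw [bpg_diff]
    have h1 := (bpg_inv η η' D hD h h').trans
      (mul_le_mul_of_nonneg_right c5 (norm_nonneg (wv η - wv η')))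
    have h2 := mul_le_mul_of_nonneg_left h1 (abs_nonneg (tm z))
    linarith
  · exact (bpg_inv η η' D hD h h').trans (mul_le_mul_of_nonneg_right c5 (norm_nonneg _))
  · exact (bpg_lip η η' D hD h h').trans (mul_le_mul_of_nonneg_right c4 (norm_nonneg _))

end Pool.Agent.H89.HDS
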